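import Pool.Agent.FGT.Stmts

/-!
Squad FGT, row CAE: almost every point satisfies COV.
-/

namespace Pool.Agent.FGT.H4

open Filter Topology Pool.Agent.H22.CIG Pool.Agent.H67.CIP Pool.Agent.H50.CIG MeasureTheory

universe u v

theorem countable_of_fg {G : Type*} [Group G] (h : Group.FG G) : Countable G := by
  obtain ⟨S, hS⟩ := Group.fg_def.mp h
  let U : Set G := (S : Set G) ∪ (S : Set G)⁻¹
  have hU : U.Finite := S.finite_toSet.union S.finite_toSet.inv
  have hUc : Countable U := hU.countable.to_subtype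
  have hsurj : Function.Surjective (fun l : List U => (List.map Subtype.val l).prod) := by
    intro g
    have hg : g ∈ Subgroup.closure (S : Set G) := by rw [hS]; exact Subgroup.mem_top g
    have hg' : g ∈ Submonoid.closure U := by
      rw [← Subgroup.closure_toSubmonoid]
      exact hg
    obtain ⟨l, hl, hp⟩ := Submonoid.exists_list_of_mem_closure hg'
    lift l to List U using hl
    exact ⟨l, hp⟩
  exact hsurj.countable

/-- enumeration of the finitely generated subgroups -/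
theorem exists_enum (L : Type u) [Group L] (h : Group.FG L) :
    ∃ K : ℕ → Subgroup L, (∀ i, (K i).FG) ∧ ∀ H : Subgroup L, H.FG → ∃ i, K i = H := by
  have : Countable L := countable_of_fg h
  obtain ⟨f, hf⟩ := exists_surjective_nat (Finset L)
  refine ⟨fun i => Subgroup.closure (f i : Set L), fun i => ⟨f i, rfl⟩, ?_⟩
  rintro H ⟨S, hS⟩
  obtain ⟨i, hi⟩ := hf S
  exact ⟨i, by show Subgroup.closure (f i : Set L) = H; rw [hi]; exact hS⟩

theorem sum_shift (f : ℤ → ℝ) (M : ℕ) :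
    ∑ j ∈ Finset.Icc (-(M : ℤ)) M, f (j + 1) =
      ∑ j ∈ Finset.Icc (-(M : ℤ)) M, f j + f (M + 1) - f (-M) := by
  have h1 : ∑ j ∈ Finset.Icc (-(M : ℤ)) M, f (j + 1) =
      ∑ j ∈ Finset.Icc (-(M : ℤ) + 1) (M + 1), f j := by
    rw [← Finset.map_add_right_Icc, Finset.sum_map]
    rfl
  have h2 : Finset.Icc (-(M : ℤ) + 1) (M + 1) =
      insert ((M : ℤ) + 1) (Finset.Icc (-(M : ℤ) + 1) M) := by
    ext j
    simp only [Finset.mem_insert, Finset.mem_Icc]
    omega
  have h3 : Finset.Icc (-(M : ℤ)) M = insert (-(M : ℤ)) (Finset.Icc (-(M : ℤ) + 1) M) := by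
    ext j
    simp only [Finset.mem_insert, Finset.mem_Icc]
    omega
  rw [h1, h2, h3, Finset.sum_insert, Finset.sum_insert]
  · ring
  · simp only [Finset.mem_Icc]
    omega
  · simp only [Finset.mem_Icc]
    omega

section

variable {X : Type v} [TopologicalSpace X] (T : X ≃ₜ X)

theorem dns_T (B : Set X) (x : X) (M : ℕ) :
    |dns T B (T x) M - dns T B x M| ≤ 2 / (2 * M + 1) := by
  unfold dns av
  rw [← sub_div, abs_div, abs_of_pos (win_pos M)]
  apply div_le_div_of_nonneg_right _ (win_pos M).le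
  have h1 : ∀ j : ℤ, (T ^ j) (T x) = (T ^ (j + 1)) x := fun j => by
    rw [zpow_add_apply, zpow_one]
  simp only [h1]
  rw [sum_shift (fun j => ind B ((T ^ j) x)) M]
  have a1 := ind_nonneg B ((T ^ ((M : ℤ) + 1)) x)
  have a2 := ind_le_one B ((T ^ ((M : ℤ) + 1)) x)
  have a3 := ind_nonneg B ((T ^ (-(M : ℤ))) x)
  have a4 := ind_le_one B ((T ^ (-(M : ℤ))) x)
  rw [abs_le]
  constructor <;> linarith

/-- the lower density along the sequence `M` is larger than `r` -/
def Vx (B : Set X) (M : ℕ → ℕ) (r : ℚ) (x : X) : Prop :=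
  ∃ s : ℚ, r < s ∧ ∀ᶠ k in atTop, (s : ℝ) < dns T B x (M k)

variable {T}

theorem Vx.trans {B : Set X} {M : ℕ → ℕ} (hM : Tendsto M atTop atTop) {r : ℚ} {x y : X}
    (hxy : ∀ n, |dns T B y n - dns T B x n| ≤ 2 / (2 * n + 1)) (h : Vx T B M r x) :
    Vx T B M r y := by
  obtain ⟨s, hrs, hs⟩ := h
  obtain ⟨s', h1, h2⟩ := exists_between hrs
  refine ⟨s', h1, ?_⟩
  have h3 : Tendsto (fun k => (2 : ℝ) / (2 * (M k : ℝ) + 1)) atTop (𝓝 0) := by
    apply Tendsto.const_div_atTop
    apply tendsto_atTop_add_const_right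
    exact (tendsto_natCast_atTop_atTop.comp hM).const_mul_atTop (by norm_num)
  have h4 : (0 : ℝ) < s - s' := by
    rw [sub_pos]
    exact_mod_cast h2
  filter_upwards [hs, h3.eventually_lt_const h4] with k hk1 hk2
  have h5 := (abs_le.1 (hxy (M k))).1
  linarith

theorem Vx_T {B : Set X} {M : ℕ → ℕ} (hM : Tendsto M atTop atTop) {r : ℚ} {x : X} :
    Vx T B M r (T x) ↔ Vx T B M r x := by
  constructor
  · intro h
    refine Vx.trans hM (fun n => ?_) h
    rw [abs_sub_comm]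
    exact dns_T T B x n
  · intro h
    exact Vx.trans hM (fun n => dns_T T B x n) h

theorem Vx_zpow {B : Set X} {M : ℕ → ℕ} (hM : Tendsto M atTop atTop) {r : ℚ} {x : X} (j : ℤ) :
    Vx T B M r ((T ^ j) x) ↔ Vx T B M r x := by
  induction j using Int.induction_on with
  | zero =>
    rw [zpow_zero]
    rfl
  | succ i ih =>
    rw [← ih, add_comm, zpow_add_apply, zpow_one]
    exact Vx_T hM
  | pred i ih =>
    rw [← ih]
    have e : (T ^ (-(i : ℤ))) x = T ((T ^ (-(i : ℤ) - 1)) x) := by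
      have h := zpow_add_apply T 1 (-(i : ℤ) - 1) x
      rw [zpow_one] at h
      rw [← h]
      congr 2
      ring
    rw [e]
    exact (Vx_T hM).symm

theorem toEquiv_zpow (T : X ≃ₜ X) (j : ℤ) (x : X) :
    ((T.toEquiv ^ j : Equiv.Perm X)) x = (T ^ j) x := by
  let F : (X ≃ₜ X) →* Equiv.Perm X :=
    { toFun := Homeomorph.toEquiv
      map_one' := rfl
      map_mul' := fun _ _ => rfl }
  have h : F (T ^ j) = (F T) ^ j := map_zpow F T j
  have h2 : (F (T ^ j)) x = ((F T) ^ j) x := by rw [h]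
  exact h2.symm

variable [MeasurableSpace X]

theorem measurable_zpow (h1 : Measurable (T : X → X)) (h2 : Measurable (T.symm : X → X)) (j : ℤ) :
    Measurable fun x : X => (T ^ j) x := by
  induction j using Int.induction_on with
  | zero =>
    have e : (fun x : X => (T ^ (0 : ℤ)) x) = fun x => x := by
      funext x
      rw [zpow_zero]
      rfl
    rw [e]
    exact measurable_id
  | succ i ih =>
    have e : (fun x : X => (T ^ ((i : ℤ) + 1)) x) = fun x => T ((T ^ (i : ℤ)) x) := by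
      funext x
      rw [add_comm, zpow_add_apply, zpow_one]
    rw [e]
    exact h1.comp ih
  | pred i ih =>
    have e : (fun x : X => (T ^ (-(i : ℤ) - 1)) x) = fun x => T.symm ((T ^ (-(i : ℤ))) x) := by
      funext x
      have h : -(i : ℤ) - 1 = -1 + -(i : ℤ) := by ring
      rw [h, zpow_add_apply, zpow_neg_one]
      rfl
    rw [e]
    exact h2.comp ih

theorem measurable_dns (hT : ∀ j : ℤ, Measurable fun x : X => (T ^ j) x) {B : Set X}
    (hB : MeasurableSet B) (M : ℕ) : Measurable fun x => dns T B x M := by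
  unfold dns av
  refine Measurable.div_const ?_ _
  refine Finset.measurable_fun_sum _ fun j _ => ?_
  have h : Measurable (ind B) := measurable_const.indicator hB
  exact h.comp (hT j)

theorem measurableSet_Vx (hT : ∀ j : ℤ, Measurable fun x : X => (T ^ j) x) {B : Set X}
    (hB : MeasurableSet B) (M : ℕ → ℕ) (r : ℚ) : MeasurableSet {x | Vx T B M r x} := by
  have e : {x | Vx T B M r x} = ⋃ s : ℚ, ⋃ (_ : r < s), ⋃ N : ℕ, ⋂ k : ℕ, ⋂ (_ : N ≤ k),
      {x | (s : ℝ) < dns T B x (M k)} := by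
    ext x
    simp [Vx, eventually_atTop]
  rw [e]
  exact MeasurableSet.iUnion fun s => MeasurableSet.iUnion fun _ => MeasurableSet.iUnion fun N =>
    MeasurableSet.iInter fun k => MeasurableSet.iInter fun _ =>
      measurableSet_lt measurable_const (measurable_dns hT hB _)

end

theorem ind_comp {X : Type v} {B : Set ℤ} {B' : Set X} {φ : ℤ → X} (h : ∀ j, j ∈ B ↔ φ j ∈ B') :
    ind B = fun j => ind B' (φ j) := by
  funext j
  by_cases hj : j ∈ B
  · rw [ind_of_mem hj, ind_of_mem ((h j).1 hj)]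
  · rw [ind_of_not_mem hj, ind_of_not_mem (fun h' => hj ((h j).2 h'))]

/-- a decreasing sequence of functions with integrals tending to zero -/
theorem ae_small {X : Type v} [MeasurableSpace X] (μ : Measure X) [IsProbabilityMeasure μ]
    (f : ℕ → X → ℝ) (hf : ∀ n, Integrable (f n) μ) (h0 : ∀ n, ∀ᵐ x ∂μ, 0 ≤ f n x)
    (hlim : Tendsto (fun n => ∫ x, f n x ∂μ) atTop (𝓝 0)) (c : ℝ) (hc : 0 < c) :
    ∀ᵐ x ∂μ, ∃ n, f n x ≤ c := by
  rw [ae_iff]
  have h1 : ∀ n, c * μ.real {x | ¬ ∃ n, f n x ≤ c} ≤ ∫ x, f n x ∂μ := by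
    intro n
    refine le_trans ?_ (mul_meas_ge_le_integral_of_nonneg (h0 n) (hf n) c)
    apply mul_le_mul_of_nonneg_left _ hc.le
    apply measureReal_mono
    · intro x hx
      have : ¬ f n x ≤ c := fun h => hx ⟨n, h⟩
      exact (not_le.1 this).le
    · exact measure_ne_top _ _
  have h2 : c * μ.real {x | ¬ ∃ n, f n x ≤ c} ≤ 0 := ge_of_tendsto' hlim h1
  have h3 : μ.real {x | ¬ ∃ n, f n x ≤ c} ≤ 0 := by
    by_contra h
    have : 0 < c * μ.real {x | ¬ ∃ n, f n x ≤ c} := mul_pos hc (not_le.1 h)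
    linarith
  have h4 : μ.real {x | ¬ ∃ n, f n x ≤ c} = 0 := le_antisymm h3 measureReal_nonneg
  rwa [measureReal_eq_zero_iff (measure_ne_top _ _)] at h4

theorem fg_map {G G' : Type*} [Group G] [Group G'] (f : G →* G') {H : Subgroup G} (h : H.FG) :
    (H.map f).FG := by
  classical
  obtain ⟨S, hS⟩ := h
  refine ⟨S.image f, ?_⟩
  rw [Finset.coe_image, ← MonoidHom.map_closure, hS]

/-- CAE -/
theorem cae (exi : ExiStmt) (erg : ErgStmt.{v}) (mix : MixStmt.{u, v}) : CaeStmt.{u, v} := by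
  intro X _ _ _ T L _ _ p μ _ hfg hcl hT hTs
  obtain ⟨K, hKfg, hK⟩ := exists_enum L hfg
  have hTj := measurable_zpow hT.measurable hTs
  have hIX : ∀ i, MeasurableSet (IX p (K i)) := by
    intro i
    obtain ⟨h1, h2, -, -⟩ := mix X T L p (K i) (hKfg i)
    have h3 : MeasurableSet (IX p (K i))ᶜ := by
      rw [h2]
      exact MeasurableSet.iUnion fun n => hcl _ (h1 n)
    exact h3.of_compl
  have hFX : ∀ i, MeasurableSet (FX X (K i)) := fun i =>
    hcl _ (mix X T L p (K i) (hKfg i)).2.2.1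
  have edns : ∀ (B : Set X) (x : X) (M : ℕ),
      av (fun j => ind B ((T.toEquiv ^ j : Equiv.Perm X) x)) M = dns T B x M := by
    intro B x M
    unfold dns
    congr 1
    funext j
    rw [toEquiv_zpow]
  obtain ⟨φ, hφ, h1⟩ := erg X T.toEquiv μ hT hTs (fun i => IX p (K i)) hIX id strictMono_id
  choose q hqm hqi hqt hqint using h1
  -- the sets
  obtain ⟨V, hV⟩ : ∃ V : ℚ → ℕ → Set X, ∀ r i, V r i = {x | Vx T (IX p (K i)) φ r x} :=
    ⟨_, fun _ _ => rfl⟩
  have hVm : ∀ r i, MeasurableSet (V r i) := fun r i => by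
    rw [hV]
    exact measurableSet_Vx hTj (hIX i) φ r
  obtain ⟨U, hU⟩ : ∃ U : ℚ → ℕ → Set X, ∀ r i, U r i = FX X (K i) ∩ V r i :=
    ⟨_, fun _ _ => rfl⟩
  have hUm : ∀ r i, MeasurableSet (U r i) := fun r i => by
    rw [hU]
    exact (hFX i).inter (hVm r i)
  obtain ⟨C, hC⟩ : ∃ C : ℚ → ℕ → Set X, ∀ r n,
      C r n = (⋃ i, U r i) \ ⋃ i : ℕ, ⋃ (_ : i < n), U r i := ⟨_, fun _ _ => rfl⟩
  have hCm : ∀ r n, MeasurableSet (C r n) := fun r n => by
    rw [hC]
    exact (MeasurableSet.iUnion fun i => hUm r i).diff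
      (MeasurableSet.iUnion fun i => MeasurableSet.iUnion fun _ => hUm r i)
  have hCanti : ∀ r, Antitone (C r) := by
    intro r n n' hn x hx
    rw [hC] at hx ⊢
    refine ⟨hx.1, fun h => hx.2 ?_⟩
    simp only [Set.mem_iUnion] at h ⊢
    obtain ⟨i, hi, h⟩ := h
    exact ⟨i, lt_of_lt_of_le hi hn, h⟩
  have hCint : ∀ r, (⋂ n, C r n) = ∅ := by
    intro r
    rw [Set.eq_empty_iff_forall_notMem]
    intro x hx
    rw [Set.mem_iInter] at hx
    have h0 := hx 0
    rw [hC] at h0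
    obtain ⟨i, hi⟩ := Set.mem_iUnion.1 h0.1
    have h1 := hx (i + 1)
    rw [hC] at h1
    apply h1.2
    simp only [Set.mem_iUnion]
    exact ⟨i, Nat.lt_succ_self i, hi⟩
  obtain ⟨e, he⟩ := exists_surjective_nat (ℚ × ℕ)
  obtain ⟨ψ, hψ, h2⟩ := erg X T.toEquiv μ hT hTs (fun l => C (e l).1 (e l).2)
    (fun l => hCm _ _) φ hφ
  choose q' hq'm hq'i hq't hq'int using h2
  have hA : ∀ᵐ x ∂μ, ∀ i, Tendsto (fun k => dns T (IX p (K i)) x (φ k)) atTop (𝓝 (q i x)) := by
    rw [ae_all_iff]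
    intro i
    filter_upwards [hqt i] with x hx
    simp only [edns] at hx
    exact hx
  have hB : ∀ᵐ x ∂μ, ∀ l, Tendsto (fun k => dns T (C (e l).1 (e l).2) x (φ (ψ k))) atTop
      (𝓝 (q' l x)) := by
    rw [ae_all_iff]
    intro l
    filter_upwards [hq't l] with x hx
    simp only [edns] at hx
    exact hx
  have hZ : ∀ᵐ x ∂μ, ∀ (r : ℚ) (m : ℕ), ∃ l, (e l).1 = r ∧ q' l x ≤ 1 / ((m : ℝ) + 1) := by
    rw [ae_all_iff]
    intro r
    rw [ae_all_iff]
    intro m
    have hl : ∀ n : ℕ, ∃ l, e l = (r, n) := fun n => he (r, n)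
    choose l hl using hl
    have h3 := ae_small μ (fun n => q' (l n)) (fun n => hq'i _) (fun n => by
      filter_upwards [hB] with x hx
      refine ge_of_tendsto' (hx (l n)) fun k => ?_
      unfold dns av
      exact div_nonneg (Finset.sum_nonneg fun j _ => ind_nonneg _ _) (win_pos _).le) (by
      have h4 : ∀ n, ∫ x, q' (l n) x ∂μ = (μ (C r n)).toReal := fun n => by
        rw [hq'int, hl n]
      simp only [h4]
      have h5 := tendsto_measure_iInter_atTop (μ := μ) (s := C r)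
        (fun n => (hCm r n).nullMeasurableSet) (hCanti r) ⟨0, measure_ne_top _ _⟩
      rw [hCint, measure_empty] at h5
      have h6 := (ENNReal.tendsto_toReal ENNReal.zero_ne_top).comp h5
      rw [ENNReal.toReal_zero] at h6
      exact h6) (1 / ((m : ℝ) + 1)) (by positivity)
    filter_upwards [h3] with x hx
    obtain ⟨n, hn⟩ := hx
    exact ⟨l n, by rw [hl n], hn⟩
  filter_upwards [hA, hB, hZ] with x hxA hxB hxZ
  obtain ⟨I, hI, hIq⟩ := exi (fun k => φ (ψ k)) (hφ.comp hψ)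
  refine ⟨I, hI, ?_⟩
  have hmII : ∀ i, ms I (II (alp p x) (K i)) = q i x := by
    intro i
    refine hIq _ (Bdd.ind _) _ ?_
    rw [ind_comp (fun j => mem_II_iff p x (K i) j)]
    exact (hxA i).comp hψ.tendsto_atTop
  have hVq : ∀ r i, x ∈ V r i ↔ (r : ℝ) < q i x := by
    intro r i
    rw [hV]
    constructor
    · rintro ⟨s, hrs, hs⟩
      have h3 : (s : ℝ) ≤ q i x := ge_of_tendsto (hxA i) (hs.mono fun k hk => hk.le)
      have h4 : (r : ℝ) < s := by exact_mod_cast hrs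
      linarith
    · intro h
      obtain ⟨s, h3, h4⟩ := exists_rat_btwn h
      exact ⟨s, by exact_mod_cast h3, (hxA i).eventually_const_lt h4⟩
  have hVT : ∀ r i (j : ℤ), (T ^ j) x ∈ V r i ↔ x ∈ V r i := by
    intro r i j
    rw [hV]
    exact Vx_zpow hφ.tendsto_atTop j
  intro ε hε η hη
  obtain ⟨D, hD⟩ : ∃ D : ℝ, D = DD (alp p x) I 0 := ⟨_, rfl⟩
  obtain ⟨r, hr1, hr2⟩ := exists_rat_btwn (show D - ε < D by linarith)
  obtain ⟨m, hm⟩ := exists_nat_one_div_lt hη
  obtain ⟨l, hl, hql⟩ := hxZ r m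
  obtain ⟨n, hn⟩ : ∃ n, n = (e l).2 := ⟨_, rfl⟩
  classical
  have claim : ∀ j : ℤ, (∃ g : L, alp p x g 0 = j) → (T ^ j) x ∈ ⋃ i, U r i := by
    rintro _ ⟨g, rfl⟩
    have hne : {r | ∃ K : Subgroup L, K.FG ∧ (0 : ℤ) ∈ Fx (alp p x) K ∧
        r = ms I (II (alp p x) K)}.Nonempty :=
      ⟨_, ⊥, ⟨∅, by simp⟩, fun g hg => by rw [Subgroup.mem_bot.1 hg, map_one]; rfl, rfl⟩
    rw [hD] at hr2
    obtain ⟨_, ⟨H, hHfg, hHfx, rfl⟩, hr⟩ := exists_lt_of_lt_csSup hne hr2
    obtain ⟨i, hi⟩ := hK (H.map (MulAut.conj g).toMonoidHom) (fg_map _ hHfg)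
    refine Set.mem_iUnion.2 ⟨i, ?_⟩
    rw [hU]
    refine ⟨?_, ?_⟩
    · rw [← mem_Fx_iff p x, hi]
      intro g' hg'
      obtain ⟨h, hh, rfl⟩ := Subgroup.mem_map.1 hg'
      show alp p x (g * h * g⁻¹) (alp p x g 0) = alp p x g 0
      have h3 := hHfx h hh
      calc alp p x (g * h * g⁻¹) (alp p x g 0) = alp p x (g * h * g⁻¹ * g) 0 := by
            rw [map_mul (alp p x) (g * h * g⁻¹) g]; rfl
        _ = alp p x (g * h) 0 := by rw [inv_mul_cancel_right]
        _ = alp p x g (alp p x h 0) := by rw [map_mul]; rfl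
        _ = alp p x g 0 := by rw [h3]
    · rw [hVT, hVq, ← hmII i, hi]
      refine lt_of_lt_of_le hr ?_
      obtain ⟨R, hR⟩ := alp_bdp p x g
      rw [← hI.ms_perm (alp p x g) R hR (II (alp p x) H)]
      apply hI.ms_mono
      rintro _ ⟨y, hy, rfl⟩
      have h4 : (alp p x g) '' orb (alp p x) H y ⊆
          orb (alp p x) (H.map (MulAut.conj g).toMonoidHom) (alp p x g y) := by
        rintro _ ⟨_, ⟨h, hh, rfl⟩, rfl⟩
        refine ⟨g * h * g⁻¹, Subgroup.mem_map.2 ⟨h, hh, rfl⟩, ?_⟩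
        calc alp p x (g * h * g⁻¹) (alp p x g y) = alp p x (g * h * g⁻¹ * g) y := by
              rw [map_mul (alp p x) (g * h * g⁻¹) g]; rfl
          _ = alp p x (g * h) y := by rw [inv_mul_cancel_right]
          _ = alp p x g (alp p x h y) := by rw [map_mul]; rfl
      exact (Set.Infinite.image ((alp p x g).injective.injOn) hy).mono h4
  refine ⟨((Finset.range n).filter fun i => x ∈ V r i).image K, ?_, ?_⟩
  · intro H hH
    obtain ⟨i, hi, rfl⟩ := Finset.mem_image.1 hH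
    refine ⟨hKfg i, ?_⟩
    have h3 := (hVq r i).1 (Finset.mem_filter.1 hi).2
    rw [hmII i, ← hD]
    linarith
  · have h3 : ms I {j : ℤ | (T ^ j) x ∈ C r n} = q' l x := by
      refine hIq _ (Bdd.ind _) _ ?_
      have h5 : ind {j : ℤ | (T ^ j) x ∈ C r n} = fun j => ind (C r n) ((T ^ j) x) :=
        ind_comp fun j => Iff.rfl
      rw [h5, hn, ← hl]
      exact hxB l
    refine (hI.ms_mono ?_).trans (h3.le.trans (hql.trans hm.le))
    rintro j ⟨hj, hjF⟩
    show (T ^ j) x ∈ C r n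
    rw [hC]
    refine ⟨claim j hj, fun h => ?_⟩
    simp only [Set.mem_iUnion] at h
    obtain ⟨i, hi, h⟩ := h
    rw [hU] at h
    apply hjF (K i) (Finset.mem_image.2 ⟨i, Finset.mem_filter.2
      ⟨Finset.mem_range.2 hi, (hVT r i j).1 h.2⟩, rfl⟩)
    rw [mem_Fx_iff]
    exact h.1

end Pool.Agent.FGT.H4
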